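import Mathlib
import Pool.Agent.TH935.LP.L1
import Pool.Agent.Y19.QT.Defs

/-!
Products of tuples of squarefree numbers are not often in a bad square class.
-/

set_option autoImplicit false

namespace Pool.Agent.Y366.QMQ3

open Pool.Agent.Y19.QT
open Finset

/-- divisors with signs -/
def sdiv (P : ℤ) : Finset ℤ :=
  (P.natAbs.divisors.image (fun e : ℕ => (e : ℤ))) ∪
    (P.natAbs.divisors.image (fun e : ℕ => -(e : ℤ)))

lemma mem_sdiv {P d : ℤ} (hP : P ≠ 0) (h : d ∣ P) : d ∈ sdiv P := by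
  have h1 : d.natAbs ∈ P.natAbs.divisors := by
    rw [Nat.mem_divisors]
    exact ⟨Int.natAbs_dvd_natAbs.2 h, Int.natAbs_ne_zero.2 hP⟩
  rw [sdiv, mem_union, mem_image, mem_image]
  rcases Int.natAbs_eq d with h2 | h2
  · exact Or.inl ⟨_, h1, h2.symm⟩
  · exact Or.inr ⟨_, h1, h2.symm⟩

lemma card_sdiv (P : ℤ) : (sdiv P).card ≤ 2 * P.natAbs.divisors.card := by
  refine (card_union_le _ _).trans ?_
  rw [two_mul]
  exact Nat.add_le_add card_image_le card_image_le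

lemma card_sqf (X : ℕ) (hX : 1 ≤ X) : (sqf X).card ≤ 3 * X := by
  refine (card_filter_le _ _).trans ?_
  rw [Int.card_Icc]
  omega

/-- The squarefree part is unique. -/
lemma sf_unique {s s' k k' : ℤ} (hs : Squarefree s) (hs' : Squarefree s')
    (h : s * k ^ 2 = s' * k' ^ 2) (h0 : s * k ^ 2 ≠ 0) : s = s' := by
  have hk : k ≠ 0 := by
    rintro rfl
    exact h0 (by ring)
  obtain ⟨a, b, hab, ha, hb⟩ := Int.exists_gcd_one (m := k) (n := k') (Int.gcd_pos_of_ne_zero_left _ hk)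
  set g : ℤ := (Int.gcd k k' : ℤ) with hg
  have hg0 : g ≠ 0 := by
    rintro h1
    rw [h1, mul_zero] at ha
    exact hk ha
  have h1 : s * a ^ 2 = s' * b ^ 2 := by
    have h2 : g ^ 2 * (s * a ^ 2) = g ^ 2 * (s' * b ^ 2) := by
      rw [ha, hb] at h
      linear_combination h
    exact mul_left_cancel₀ (pow_ne_zero 2 hg0) h2
  have hc : IsCoprime a b := Int.isCoprime_iff_gcd_eq_one.2 hab
  have h2 : b ^ 2 ∣ s := by
    have h3 : b ^ 2 ∣ s * a ^ 2 := ⟨s', by rw [h1]; ring⟩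
    exact (IsCoprime.pow hc.symm).dvd_of_dvd_mul_right h3
  have h3 : a ^ 2 ∣ s' := by
    have h4 : a ^ 2 ∣ s' * b ^ 2 := ⟨s, by rw [← h1]; ring⟩
    exact (IsCoprime.pow hc).dvd_of_dvd_mul_right h4
  have hub : IsUnit b := hs b (by rwa [← sq])
  have hua : IsUnit a := hs' a (by rwa [← sq])
  rw [Int.isUnit_sq hua, Int.isUnit_sq hub, mul_one, mul_one] at h1
  exact h1

/-- The sum over the products, the divisor part. -/
lemma sum_tau (I : Finset ℤ) (Y m : ℕ) (hI : ∀ P ∈ I, P ≠ 0 ∧ P.natAbs ≤ Y) :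
    ∑ P ∈ I, (P.natAbs.divisors.card : ℝ) ^ m ≤ 2 * (Y * (1 + Real.log Y) ^ (2 ^ m)) := by
  have h1 : I ⊆ ((Icc 1 Y).image (fun e : ℕ => (e : ℤ))) ∪
      ((Icc 1 Y).image (fun e : ℕ => -(e : ℤ))) := by
    intro P hP
    obtain ⟨h2, h3⟩ := hI P hP
    have h4 : P.natAbs ∈ Icc 1 Y := by
      rw [mem_Icc]
      exact ⟨Int.natAbs_pos.2 h2, h3⟩
    rw [mem_union, mem_image, mem_image]
    rcases Int.natAbs_eq P with h5 | h5
    · exact Or.inl ⟨_, h4, h5.symm⟩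
    · exact Or.inr ⟨_, h4, h5.symm⟩
  have hnn : ∀ P : ℤ, 0 ≤ (P.natAbs.divisors.card : ℝ) ^ m := fun P => by positivity
  refine (sum_le_sum_of_subset_of_nonneg h1 fun P _ _ => hnn P).trans ?_
  have h2 := sum_union_inter (s₁ := (Icc 1 Y).image (fun e : ℕ => (e : ℤ)))
    (s₂ := (Icc 1 Y).image (fun e : ℕ => -(e : ℤ)))
    (f := fun P : ℤ => (P.natAbs.divisors.card : ℝ) ^ m)
  have h3 : 0 ≤ ∑ P ∈ ((Icc 1 Y).image (fun e : ℕ => (e : ℤ))) ∩
      ((Icc 1 Y).image (fun e : ℕ => -(e : ℤ))), (P.natAbs.divisors.card : ℝ) ^ m :=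
    sum_nonneg fun P _ => hnn P
  have h4 : ∑ P ∈ (Icc 1 Y).image (fun e : ℕ => (e : ℤ)), (P.natAbs.divisors.card : ℝ) ^ m =
      ∑ n ∈ Icc 1 Y, (n.divisors.card : ℝ) ^ m := by
    rw [sum_image (fun a _ b _ h => by exact_mod_cast h)]
    simp
  have h5 : ∑ P ∈ (Icc 1 Y).image (fun e : ℕ => -(e : ℤ)), (P.natAbs.divisors.card : ℝ) ^ m =
      ∑ n ∈ Icc 1 Y, (n.divisors.card : ℝ) ^ m := by
    rw [sum_image (fun a _ b _ h => by
      have h6 : -(a : ℤ) = -(b : ℤ) := h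
      omega)]
    simp
  have h6 := Pool.Agent.TH935.LD.tau_pow_sum m Y
  rw [h4, h5] at h2
  linarith

/-- The sum over the products, the part of the function. -/
lemma sum_g (I : Finset ℤ) (Y : ℕ) (hI : ∀ P ∈ I, P ≠ 0 ∧ P.natAbs ≤ Y) (σ : ℤ → ℤ)
    (hσ : ∀ P ∈ I, Squarefree (σ P) ∧ ∃ k : ℤ, P = σ P * k ^ 2) (g : ℤ → ℝ)
    (Cg : ℝ) (Ag : ℕ) (hCg : 0 ≤ Cg)
    (hg : ∀ X : ℕ, 3 ≤ X → ∑ s ∈ sqf X, g s ^ 2 ≤ Cg * X * Real.log X ^ Ag) :
    ∑ P ∈ I, g (σ P) ^ 2 ≤ 3 * Cg * Y * Real.log (3 * Y) ^ Ag * (1 + Real.log Y) := by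
  have h1 : ∀ P ∈ I, ∃ k : ℕ, P = σ P * (k : ℤ) ^ 2 := by
    intro P hP
    obtain ⟨-, k, hk⟩ := hσ P hP
    exact ⟨k.natAbs, by rw [Int.natCast_natAbs, sq_abs, ← hk]⟩
  choose! κ hκ using h1
  have hk0 : ∀ P ∈ I, κ P ≠ 0 := by
    intro P hP h0
    have h2 := hκ P hP
    rw [h0] at h2
    exact (hI P hP).1 (by rw [h2]; simp)
  have hs0 : ∀ P ∈ I, σ P ≠ 0 := fun P hP => (hσ P hP).1.ne_zero
  have habs : ∀ P ∈ I, (σ P).natAbs * κ P ^ 2 = P.natAbs := by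
    intro P hP
    conv_rhs => rw [hκ P hP]
    rw [Int.natAbs_mul, Int.natAbs_pow, Int.natAbs_natCast]
  set J : Finset (Σ _ : ℕ, ℤ) := (Icc 1 (Nat.sqrt Y)).sigma fun k => sqf (Y / k ^ 2) with hJ
  have hmem : ∀ P ∈ I, (⟨κ P, σ P⟩ : Σ _ : ℕ, ℤ) ∈ J := by
    intro P hP
    rw [hJ, mem_sigma, mem_Icc, mem_sqf]
    have h2 := habs P hP
    have h3 := (hI P hP).2
    have h4 : 1 ≤ κ P := Nat.one_le_iff_ne_zero.2 (hk0 P hP)
    have h5 : 1 ≤ (σ P).natAbs := Int.natAbs_pos.2 (hs0 P hP)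
    refine ⟨⟨h4, ?_⟩, ?_, (hσ P hP).1⟩
    · rw [Nat.le_sqrt, ← sq]
      calc κ P ^ 2 = 1 * κ P ^ 2 := (one_mul _).symm
        _ ≤ (σ P).natAbs * κ P ^ 2 := Nat.mul_le_mul_right _ h5
        _ ≤ Y := by rw [h2]; exact h3
    · have h6 : (σ P).natAbs ≤ Y / κ P ^ 2 := by
        rw [Nat.le_div_iff_mul_le (by positivity)]
        omega
      rw [Int.abs_eq_natAbs]
      exact_mod_cast h6
  have hinj : Set.InjOn (fun P : ℤ => (⟨κ P, σ P⟩ : Σ _ : ℕ, ℤ)) (I : Set ℤ) := by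
    intro P hP P' hP' h
    have h2 : κ P = κ P' := congrArg Sigma.fst h
    have h3 : σ P = σ P' := by
      have h4 : (fun x : (Σ _ : ℕ, ℤ) => x.2) ⟨κ P, σ P⟩ =
        (fun x : (Σ _ : ℕ, ℤ) => x.2) ⟨κ P', σ P'⟩ := congrArg _ h
      exact h4
    rw [hκ P hP, hκ P' hP', h2, h3]
  have h2 : ∑ P ∈ I, g (σ P) ^ 2 ≤ ∑ x ∈ J, g x.2 ^ 2 := by
    have h3 : ∑ P ∈ I, g (σ P) ^ 2 =
        ∑ x ∈ I.image (fun P : ℤ => (⟨κ P, σ P⟩ : Σ _ : ℕ, ℤ)), g x.2 ^ 2 := by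
      rw [sum_image hinj]
    rw [h3]
    refine sum_le_sum_of_subset_of_nonneg ?_ fun x _ _ => sq_nonneg _
    intro x hx
    rw [mem_image] at hx
    obtain ⟨P, hP, rfl⟩ := hx
    exact hmem P hP
  refine h2.trans ?_
  rw [hJ, sum_sigma]
  have h3 : ∀ k ∈ Icc 1 (Nat.sqrt Y), ∑ s ∈ sqf (Y / k ^ 2), g s ^ 2 ≤
      3 * Cg * Y * Real.log (3 * Y) ^ Ag * (1 / (k : ℝ)) := by
    intro k hk
    rw [mem_Icc, Nat.le_sqrt, ← sq] at hk
    obtain ⟨hk1, hk2⟩ := hk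
    set Z := Y / k ^ 2 with hZ
    have hZ1 : 1 ≤ Z := by
      rw [hZ, Nat.le_div_iff_mul_le (by positivity)]
      omega
    have hZY : Z ≤ Y := Nat.div_le_self _ _
    have hsub : sqf Z ⊆ sqf (3 * Z) := by
      intro s hs
      rw [mem_sqf] at hs ⊢
      refine ⟨hs.1.trans ?_, hs.2⟩
      push_cast
      omega
    have h4 : ∑ s ∈ sqf Z, g s ^ 2 ≤ ∑ s ∈ sqf (3 * Z), g s ^ 2 :=
      sum_le_sum_of_subset_of_nonneg hsub fun x _ _ => sq_nonneg _
    have h5 := hg (3 * Z) (by omega)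
    have hkr : (1 : ℝ) ≤ k := by exact_mod_cast hk1
    have hYr : (0 : ℝ) ≤ Y := Nat.cast_nonneg _
    have hZr : (1 : ℝ) ≤ Z := by exact_mod_cast hZ1
    have hZY' : (Z : ℝ) ≤ Y := by exact_mod_cast hZY
    have h6 : (Z : ℝ) ≤ Y * (1 / (k : ℝ)) := by
      have h7 : (Z : ℝ) ≤ (Y : ℝ) / ((k ^ 2 : ℕ) : ℝ) := Nat.cast_div_le
      refine h7.trans ?_
      rw [div_eq_mul_one_div]
      apply mul_le_mul_of_nonneg_left _ hYr
      apply one_div_le_one_div_of_le (by linarith)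
      push_cast
      nlinarith
    have h7 : Real.log ((3 * Z : ℕ) : ℝ) ^ Ag ≤ Real.log (3 * Y) ^ Ag := by
      apply pow_le_pow_left₀ (Real.log_natCast_nonneg _)
      apply Real.log_le_log
      · push_cast
        linarith
      · push_cast
        linarith
    have h8 : 0 ≤ Real.log (3 * Y) ^ Ag := (pow_nonneg (Real.log_natCast_nonneg _) _).trans h7
    calc ∑ s ∈ sqf Z, g s ^ 2 ≤ Cg * ((3 * Z : ℕ) : ℝ) * Real.log ((3 * Z : ℕ) : ℝ) ^ Ag :=
          h4.trans h5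
      _ ≤ Cg * ((3 * Z : ℕ) : ℝ) * Real.log (3 * Y) ^ Ag :=
          mul_le_mul_of_nonneg_left h7 (by positivity)
      _ = 3 * Cg * Real.log (3 * Y) ^ Ag * Z := by push_cast; ring
      _ ≤ 3 * Cg * Real.log (3 * Y) ^ Ag * (Y * (1 / (k : ℝ))) :=
          mul_le_mul_of_nonneg_left h6 (by positivity)
      _ = _ := by ring
  refine (sum_le_sum h3).trans ?_
  rw [← mul_sum]
  rcases Nat.eq_zero_or_pos Y with hY | hY
  · simp [hY]
  have hY1 : (1 : ℝ) ≤ Y := by exact_mod_cast hY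
  have h4 : 0 ≤ Real.log (3 * Y) ^ Ag := pow_nonneg (Real.log_nonneg (by linarith)) _
  apply mul_le_mul_of_nonneg_left _ (by positivity)
  refine le_trans ?_ (Pool.Agent.TH935.DSB.harm Y)
  apply sum_le_sum_of_subset_of_nonneg
  · exact Icc_subset_Icc_right (Nat.sqrt_le_self Y)
  · intro x _ _
    positivity

/-- The number of tuples with given product. -/
lemma card_fiber (m : ℤ) (n : ℕ) (T : Finset (Fin n)) (X : ℕ) (hX : 1 ≤ X) (P : ℤ) (hP : P ≠ 0) :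
    (((Fintype.piFinset (fun _ : Fin n => sqf X)).filter fun d => m * ∏ i ∈ T, d i = P).card : ℝ)
      ≤ (3 * X) ^ (n - T.card) * (2 * (P.natAbs.divisors.card : ℝ)) ^ T.card := by
  classical
  have h1 : (Fintype.piFinset (fun _ : Fin n => sqf X)).filter (fun d => m * ∏ i ∈ T, d i = P) ⊆
      Fintype.piFinset (fun i : Fin n => if i ∈ T then sdiv P else sqf X) := by
    intro d hd
    rw [mem_filter, Fintype.mem_piFinset] at hd
    rw [Fintype.mem_piFinset]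
    intro i
    by_cases hi : i ∈ T
    · rw [if_pos hi]
      apply mem_sdiv hP
      rw [← hd.2]
      exact (dvd_prod_of_mem _ hi).mul_left _
    · rw [if_neg hi]
      exact hd.1 i
  have h2 := card_le_card h1
  rw [Fintype.card_piFinset] at h2
  have h3 : ∏ i : Fin n, (if i ∈ T then sdiv P else sqf X).card =
      (sdiv P).card ^ T.card * (sqf X).card ^ (n - T.card) := by
    have h4 : ∀ i : Fin n, (if i ∈ T then sdiv P else sqf X).card =
        if i ∈ T then (sdiv P).card else (sqf X).card := by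
      intro i
      split_ifs <;> rfl
    rw [prod_congr rfl fun i _ => h4 i, prod_ite, prod_const, prod_const]
    congr 2
    · congr 1
      ext i
      simp
    · have h5 : (univ.filter fun i => i ∉ T) = Tᶜ := by
        ext i
        simp
      rw [h5, card_compl, Fintype.card_fin]
  rw [h3] at h2
  have h4 : (((sdiv P).card ^ T.card * (sqf X).card ^ (n - T.card) : ℕ) : ℝ) ≤
      (2 * (P.natAbs.divisors.card : ℝ)) ^ T.card * (3 * X) ^ (n - T.card) := by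
    push_cast
    apply mul_le_mul
    · apply pow_le_pow_left₀ (Nat.cast_nonneg _)
      exact_mod_cast card_sdiv P
    · apply pow_le_pow_left₀ (Nat.cast_nonneg _)
      exact_mod_cast card_sqf X hX
    · positivity
    · positivity
  rw [mul_comm]
  exact le_trans (by exact_mod_cast h2) h4

theorem MQ3 (m : ℤ) (hm : m ≠ 0) (n : ℕ) (T : Finset (Fin n)) (hT : T.Nonempty)
    (Cg : ℝ) (Ag : ℕ) : ∃ (C : ℝ) (A : ℕ), ∀ (g : ℤ → ℝ), (∀ s, 0 ≤ g s) →
      (∀ X : ℕ, 3 ≤ X → ∑ s ∈ sqf X, g s ^ 2 ≤ Cg * X * Real.log X ^ Ag) →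
      ∀ (sf : (Fin n → ℤ) → ℤ), (∀ d, (∀ i, d i ≠ 0) → Squarefree (sf d) ∧
        ∃ k : ℤ, m * ∏ i ∈ T, d i = sf d * k ^ 2) →
      ∀ X : ℕ, 3 ≤ X → ∑ d ∈ Fintype.piFinset (fun _ : Fin n => sqf X), g (sf d) ≤
        C * (X : ℝ) ^ n * Real.log X ^ A := by
  classical
  set t := T.card with ht
  have htn : t ≤ n := by
    have := card_le_univ T
    rwa [Fintype.card_fin] at this
  set B : ℝ := 2 + Real.log m.natAbs + t with hB
  have hm1 : 1 ≤ m.natAbs := Int.natAbs_pos.2 hm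
  have hmr : (1 : ℝ) ≤ (m.natAbs : ℝ) := by exact_mod_cast hm1
  have hlm : 0 ≤ Real.log m.natAbs := Real.log_natCast_nonneg _
  have hB1 : 1 ≤ B := by
    rw [hB]
    have : (0 : ℝ) ≤ t := Nat.cast_nonneg _
    linarith
  refine ⟨3 ^ n * m.natAbs * (4 ^ t * B ^ (2 ^ (2 * t)) + 3 * |Cg| * B ^ (Ag + 1)),
    2 ^ (2 * t) + (Ag + 1), ?_⟩
  intro g hg0 hg sf hsf X hX
  have hX1 : 1 ≤ X := by omega
  have hXr : (3 : ℝ) ≤ X := by exact_mod_cast hX
  have hlog3 : 1 ≤ Real.log 3 := by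
    rw [Real.le_log_iff_exp_le (by norm_num)]
    exact Real.exp_one_lt_three.le
  have hlX : Real.log 3 ≤ Real.log X := Real.log_le_log (by norm_num) hXr
  have hlX1 : 1 ≤ Real.log X := hlog3.trans hlX
  have hCg : 0 ≤ Cg := by
    have h1 := hg 3 le_rfl
    have h2 : 0 ≤ ∑ s ∈ sqf 3, g s ^ 2 := sum_nonneg fun s _ => sq_nonneg _
    have h3 : 0 < ((3 : ℕ) : ℝ) * Real.log ((3 : ℕ) : ℝ) ^ Ag := by
      push_cast
      have : 0 < Real.log 3 := by linarith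
      positivity
    by_contra hcon
    push Not at hcon
    have h4 : Cg * (((3 : ℕ) : ℝ) * Real.log ((3 : ℕ) : ℝ) ^ Ag) < 0 :=
      mul_neg_of_neg_of_pos hcon h3
    rw [← mul_assoc] at h4
    linarith
  set Y : ℕ := m.natAbs * X ^ t with hY
  have hY1 : 1 ≤ Y := Nat.mul_pos hm1 (by positivity)
  have hYr : (1 : ℝ) ≤ Y := by exact_mod_cast hY1
  set D := Fintype.piFinset (fun _ : Fin n => sqf X) with hD
  set f : (Fin n → ℤ) → ℤ := fun d => m * ∏ i ∈ T, d i with hf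
  set I := D.image f with hI
  have hdn : ∀ d ∈ D, ∀ i, d i ≠ 0 := by
    intro d hd i
    rw [hD, Fintype.mem_piFinset] at hd
    exact (mem_sqf.1 (hd i)).2.ne_zero
  have hdX : ∀ d ∈ D, ∀ i, (d i).natAbs ≤ X := by
    intro d hd i
    rw [hD, Fintype.mem_piFinset] at hd
    have h1 := (mem_sqf.1 (hd i)).1
    rw [Int.abs_eq_natAbs] at h1
    exact_mod_cast h1
  have hfd0 : ∀ d ∈ D, f d ≠ 0 := fun d hd => mul_ne_zero hm (prod_ne_zero_iff.2 fun i _ => hdn d hd i)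
  have hIY : ∀ P ∈ I, P ≠ 0 ∧ P.natAbs ≤ Y := by
    intro P hP
    rw [hI, mem_image] at hP
    obtain ⟨d, hd, rfl⟩ := hP
    refine ⟨hfd0 d hd, ?_⟩
    rw [hf, hY]
    show (m * ∏ i ∈ T, d i).natAbs ≤ _
    rw [Int.natAbs_mul]
    apply Nat.mul_le_mul_left
    have h1 : (∏ i ∈ T, d i).natAbs = ∏ i ∈ T, (d i).natAbs := map_prod Int.natAbsHom d T
    rw [h1, ht]
    exact prod_le_pow_card _ _ _ fun i _ => hdX d hd i
  have hch : ∀ P ∈ I, ∃ d ∈ D, f d = P := fun P hP => mem_image.1 hP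
  choose! dP hdP hfP using hch
  set σ : ℤ → ℤ := fun P => sf (dP P) with hσ
  have hσI : ∀ P ∈ I, Squarefree (σ P) ∧ ∃ k : ℤ, P = σ P * k ^ 2 := by
    intro P hP
    obtain ⟨h1, k, h2⟩ := hsf (dP P) (hdn _ (hdP P hP))
    refine ⟨h1, k, ?_⟩
    rw [← h2]
    exact (hfP P hP).symm
  have huniq : ∀ P ∈ I, ∀ d ∈ D, f d = P → sf d = σ P := by
    intro P hP d hd hdf
    obtain ⟨h1, k, h2⟩ := hsf d (hdn _ hd)
    obtain ⟨h3, k', h4⟩ := hσI P hP
    have h5 : sf d * k ^ 2 = P := by rw [← h2]; exact hdf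
    refine sf_unique h1 h3 (by rw [h5]; exact h4) ?_
    rw [h5]
    exact (hIY P hP).1
  have hS : ∑ d ∈ D, g (sf d) = ∑ P ∈ I, ((D.filter fun d => f d = P).card : ℝ) * g (σ P) := by
    rw [← sum_fiberwise_of_maps_to (t := I) (g := f) fun d hd => mem_image_of_mem _ hd]
    refine sum_congr rfl fun P hP => ?_
    have h1 : ∀ d ∈ D.filter (fun d => f d = P), g (sf d) = g (σ P) := by
      intro d hd
      rw [mem_filter] at hd
      rw [huniq P hP d hd.1 hd.2]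
    rw [sum_congr rfl h1, sum_const, nsmul_eq_mul]
  have h1 : ∀ P ∈ I, ((D.filter fun d => f d = P).card : ℝ) * g (σ P) ≤
      (3 * X) ^ (n - t) * ((2 : ℝ) ^ (2 * t) * (P.natAbs.divisors.card : ℝ) ^ (2 * t) +
        g (σ P) ^ 2) / 2 := by
    intro P hP
    have h2 := card_fiber m n T X hX1 P (hIY P hP).1
    have h3 : ((D.filter fun d => f d = P).card : ℝ) * g (σ P) ≤
      ((3 * X) ^ (n - t) * (2 * (P.natAbs.divisors.card : ℝ)) ^ t) * g (σ P) :=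
      mul_le_mul_of_nonneg_right h2 (hg0 _)
    refine h3.trans ?_
    have h4 : (2 * (P.natAbs.divisors.card : ℝ)) ^ t * g (σ P) ≤
        ((2 : ℝ) ^ (2 * t) * (P.natAbs.divisors.card : ℝ) ^ (2 * t) + g (σ P) ^ 2) / 2 := by
      have h5 : (2 : ℝ) ^ (2 * t) * (P.natAbs.divisors.card : ℝ) ^ (2 * t) =
          ((2 * (P.natAbs.divisors.card : ℝ)) ^ t) ^ 2 := by
        rw [← mul_pow, ← pow_mul, mul_comm t 2]
      rw [h5]
      nlinarith [sq_nonneg ((2 * (P.natAbs.divisors.card : ℝ)) ^ t - g (σ P))]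
    calc _ = (3 * (X : ℝ)) ^ (n - t) * ((2 * (P.natAbs.divisors.card : ℝ)) ^ t * g (σ P)) := by
          ring
      _ ≤ (3 * (X : ℝ)) ^ (n - t) *
          (((2 : ℝ) ^ (2 * t) * (P.natAbs.divisors.card : ℝ) ^ (2 * t) + g (σ P) ^ 2) / 2) :=
          mul_le_mul_of_nonneg_left h4 (by positivity)
      _ = _ := by ring
  have h2 : ∑ d ∈ D, g (sf d) ≤ (3 * X) ^ (n - t) *
      ((2 : ℝ) ^ (2 * t) * (∑ P ∈ I, (P.natAbs.divisors.card : ℝ) ^ (2 * t)) +
        ∑ P ∈ I, g (σ P) ^ 2) / 2 := by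
    rw [hS]
    refine (sum_le_sum h1).trans (le_of_eq ?_)
    rw [← sum_div, ← mul_sum, sum_add_distrib, ← mul_sum]
  have h3 := sum_tau I Y (2 * t) hIY
  have h4 := sum_g I Y hIY σ hσI g Cg Ag hCg hg
  -- logarithms
  have hl3Y : Real.log (3 * Y) ≤ B * Real.log X := by
    have h5 : Real.log (3 * (Y : ℝ)) = Real.log 3 + (Real.log m.natAbs + t * Real.log X) := by
      rw [hY]
      push_cast
      rw [Real.log_mul (by norm_num) (by positivity), Real.log_mul (by positivity) (by positivity),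
        Real.log_pow]
    rw [h5, hB]
    nlinarith
  have hlY : 1 + Real.log Y ≤ B * Real.log X := by
    refine le_trans ?_ hl3Y
    rw [Real.log_mul (by norm_num) (by positivity)]
    linarith
  have hlY0 : 0 ≤ 1 + Real.log Y := by
    have := Real.log_natCast_nonneg Y
    linarith
  have hl3Y0 : 0 ≤ Real.log (3 * Y) := Real.log_nonneg (by linarith)
  have hBX : 1 ≤ B * Real.log X := by nlinarith
  have e1 : (1 + Real.log Y) ^ (2 ^ (2 * t)) ≤ B ^ (2 ^ (2 * t)) * Real.log X ^ (2 ^ (2 * t) + (Ag + 1)) := by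
    calc (1 + Real.log Y) ^ (2 ^ (2 * t)) ≤ (B * Real.log X) ^ (2 ^ (2 * t)) :=
          pow_le_pow_left₀ hlY0 hlY _
      _ = B ^ (2 ^ (2 * t)) * Real.log X ^ (2 ^ (2 * t)) := mul_pow _ _ _
      _ ≤ _ := by
        apply mul_le_mul_of_nonneg_left _ (by positivity)
        exact pow_le_pow_right₀ hlX1 (Nat.le_add_right _ _)
  have e2 : Real.log (3 * Y) ^ Ag * (1 + Real.log Y) ≤
      B ^ (Ag + 1) * Real.log X ^ (2 ^ (2 * t) + (Ag + 1)) := by
    calc Real.log (3 * Y) ^ Ag * (1 + Real.log Y) ≤ (B * Real.log X) ^ Ag * (B * Real.log X) := by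
          apply mul_le_mul (pow_le_pow_left₀ hl3Y0 hl3Y _) hlY hlY0 (by positivity)
      _ = B ^ (Ag + 1) * Real.log X ^ (Ag + 1) := by rw [← pow_succ, mul_pow]
      _ ≤ _ := by
        apply mul_le_mul_of_nonneg_left _ (by positivity)
        exact pow_le_pow_right₀ hlX1 (Nat.le_add_left _ _)
  set LA := Real.log X ^ (2 ^ (2 * t) + (Ag + 1)) with hLA
  have h5 : (2 : ℝ) ^ (2 * t) * (∑ P ∈ I, (P.natAbs.divisors.card : ℝ) ^ (2 * t)) +
        ∑ P ∈ I, g (σ P) ^ 2 ≤ 2 * (4 ^ t * B ^ (2 ^ (2 * t)) + 3 * |Cg| * B ^ (Ag + 1)) * Y * LA := by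
    rw [abs_of_nonneg hCg]
    have h6 : (2 : ℝ) ^ (2 * t) = 4 ^ t := by rw [pow_mul]; norm_num
    rw [h6]
    have h7 : (4 : ℝ) ^ t * (∑ P ∈ I, (P.natAbs.divisors.card : ℝ) ^ (2 * t)) ≤
        4 ^ t * (2 * (Y * (B ^ (2 ^ (2 * t)) * LA))) := by
      apply mul_le_mul_of_nonneg_left _ (by positivity)
      refine h3.trans ?_
      apply mul_le_mul_of_nonneg_left _ (by norm_num)
      exact mul_le_mul_of_nonneg_left e1 (by positivity)
    have h8 : ∑ P ∈ I, g (σ P) ^ 2 ≤ 3 * Cg * Y * (B ^ (Ag + 1) * LA) := by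
      refine h4.trans ?_
      rw [mul_assoc (3 * Cg * (Y : ℝ))]
      exact mul_le_mul_of_nonneg_left e2 (by positivity)
    have h9 : 0 ≤ 3 * Cg * Y * (B ^ (Ag + 1) * LA) := by positivity
    nlinarith
  have h6 : (3 * (X : ℝ)) ^ (n - t) * (Y : ℝ) ≤ 3 ^ n * m.natAbs * (X : ℝ) ^ n := by
    have h7 : (Y : ℝ) = m.natAbs * (X : ℝ) ^ t := by rw [hY]; push_cast; ring
    rw [h7, mul_pow]
    have h8 : (X : ℝ) ^ (n - t) * (X : ℝ) ^ t = (X : ℝ) ^ n := by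
      rw [← pow_add]
      congr 1
      omega
    have h9 : (3 : ℝ) ^ (n - t) ≤ 3 ^ n := pow_le_pow_right₀ (by norm_num) (by omega)
    calc (3 : ℝ) ^ (n - t) * (X : ℝ) ^ (n - t) * (m.natAbs * (X : ℝ) ^ t) =
          3 ^ (n - t) * (m.natAbs * ((X : ℝ) ^ (n - t) * (X : ℝ) ^ t)) := by ring
      _ = 3 ^ (n - t) * (m.natAbs * (X : ℝ) ^ n) := by rw [h8]
      _ ≤ 3 ^ n * (m.natAbs * (X : ℝ) ^ n) := mul_le_mul_of_nonneg_right h9 (by positivity)
      _ = _ := by ring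
  set E := 4 ^ t * B ^ (2 ^ (2 * t)) + 3 * |Cg| * B ^ (Ag + 1) with hE
  have hE0 : 0 ≤ E := by positivity
  have hLA0 : 0 ≤ LA := by positivity
  calc ∑ d ∈ D, g (sf d) ≤ _ := h2
    _ ≤ (3 * X) ^ (n - t) * (2 * E * Y * LA) / 2 := by
      apply div_le_div_of_nonneg_right _ (by norm_num)
      exact mul_le_mul_of_nonneg_left h5 (by positivity)
    _ = ((3 * X) ^ (n - t) * Y) * (E * LA) := by ring
    _ ≤ (3 ^ n * m.natAbs * (X : ℝ) ^ n) * (E * LA) :=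
      mul_le_mul_of_nonneg_right h6 (by positivity)
    _ = _ := by ring

end Pool.Agent.Y366.QMQ3
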